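import Pool.Agent.Y267.MX.Defs

/-! MX-B: three one-variable integral bounds for the profile weight. -/

open MeasureTheory Set Filter Topology
open scoped ENNReal NNReal

namespace Pool.Agent.Y908.MX

open Pool.Agent.Y267.MX

lemma lint_evenB {f : ℝ → ℝ≥0∞} (hf : ∀ x, f (-x) = f x) {r : ℝ} (hr : 0 ≤ r) :
    ∫⁻ x in Icc (-r) r, f x = 2 * ∫⁻ x in Icc 0 r, f x := by
  have h1 : ∫⁻ x in Icc (-r) r, f x = (∫⁻ x in Icc (-r) 0, f x) + ∫⁻ x in Ioc 0 r, f x := by
    rw [← Icc_union_Ioc_eq_Icc (by linarith : -r ≤ 0) hr]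
    apply lintegral_union measurableSet_Ioc
    rw [Set.disjoint_left]
    intro x hx hx2
    exact absurd hx2.1 (not_lt.mpr hx.2)
  have h2 : ∫⁻ x in Icc (-r) 0, f x = ∫⁻ x in Icc 0 r, f x := by
    have hm : MeasurePreserving (fun x : ℝ => -x) volume volume :=
      Measure.measurePreserving_neg volume
    have he : MeasurableEmbedding (fun x : ℝ => -x) := (Homeomorph.neg ℝ).measurableEmbedding
    have := hm.setLIntegral_comp_preimage_emb he f (Icc 0 r)
    rw [← this]
    have hset : (fun x : ℝ => -x) ⁻¹' Icc 0 r = Icc (-r) 0 := by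
      ext x; simp only [mem_preimage, mem_Icc]; constructor <;> rintro ⟨a, b⟩ <;> constructor <;> linarith
    rw [hset]
    simp [hf]
  have h3 : ∫⁻ x in Ioc 0 r, f x = ∫⁻ x in Icc 0 r, f x :=
    setLIntegral_congr Ioc_ae_eq_Icc
  rw [h1, h2, h3, two_mul]

/-- the middle part -/
lemma int_midB {E T L : ℝ} (e1 : 0 < E) (e0 : E ≤ 1) (hE : Real.log E = -L) (hT : 0 < T)
    (hLT : L ≤ T) :
    ∫⁻ x in Icc E 1, ENNReal.ofReal (E / x ^ 2 + T⁻¹ / x) ≤ ENNReal.ofReal 2 := by
  have hpos : ∀ x ∈ Icc E 1, 0 < x := fun x hx => lt_of_lt_of_le e1 hx.1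
  have hderiv : ∀ x ∈ Set.uIcc E 1,
      HasDerivAt (fun x => -(E * x⁻¹) + T⁻¹ * Real.log x) (E / x ^ 2 + T⁻¹ / x) x := by
    intro x hx
    rw [Set.uIcc_of_le e0] at hx
    have hx0 : x ≠ 0 := (hpos x hx).ne'
    have h1 := ((hasDerivAt_inv hx0).const_mul E).neg
    have h2 := (Real.hasDerivAt_log hx0).const_mul T⁻¹
    refine HasDerivAt.congr_deriv (h1.add h2) ?_
    field_simp
  have hcont : ContinuousOn (fun x : ℝ => E / x ^ 2 + T⁻¹ / x) (Icc E 1) := by
    apply ContinuousOn.add
    · apply ContinuousOn.div continuousOn_const (continuousOn_id.pow 2)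
      intro x hx
      exact pow_ne_zero 2 (hpos x hx).ne'
    · apply ContinuousOn.div continuousOn_const continuousOn_id
      intro x hx
      exact (hpos x hx).ne'
  have hint := intervalIntegral.integral_eq_sub_of_hasDerivAt hderiv
    (by apply ContinuousOn.intervalIntegrable; rwa [Set.uIcc_of_le e0])
  rw [intervalIntegral.integral_of_le e0, ← integral_Icc_eq_integral_Ioc] at hint
  rw [← ofReal_integral_eq_lintegral_ofReal hcont.integrableOn_Icc]
  · rw [hint]
    apply ENNReal.ofReal_le_ofReal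
    rw [Real.log_one, hE, mul_inv_cancel₀ e1.ne']
    have : T⁻¹ * L ≤ 1 := by
      rw [inv_mul_le_iff₀ hT]; linarith
    nlinarith
  · filter_upwards [ae_restrict_mem measurableSet_Icc] with x hx
    have := hpos x hx
    positivity

lemma log_intB {L r : ℝ} (h : Real.exp (-L) ≤ r) :
    ∫⁻ x in Icc (Real.exp (-L)) r, ENNReal.ofReal (1 / x) = ENNReal.ofReal (L + Real.log r) := by
  have e1 := Real.exp_pos (-L)
  have hpos : ∀ x ∈ Icc (Real.exp (-L)) r, 0 < x := fun x hx => lt_of_lt_of_le e1 hx.1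
  have hderiv : ∀ x ∈ Set.uIcc (Real.exp (-L)) r,
      HasDerivAt (fun x => Real.log x) (1 / x) x := by
    intro x hx
    rw [Set.uIcc_of_le h] at hx
    have h1 := (Real.hasDerivAt_log (hpos x hx).ne')
    simpa [div_eq_mul_inv] using h1
  have hcont : ContinuousOn (fun x : ℝ => 1 / x) (Icc (Real.exp (-L)) r) := by
    apply ContinuousOn.div continuousOn_const continuousOn_id
    intro x hx
    exact (hpos x hx).ne'
  have hint := intervalIntegral.integral_eq_sub_of_hasDerivAt hderiv
    (by apply ContinuousOn.intervalIntegrable; rwa [Set.uIcc_of_le h])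
  rw [intervalIntegral.integral_of_le h, ← integral_Icc_eq_integral_Ioc] at hint
  rw [← ofReal_integral_eq_lintegral_ofReal hcont.integrableOn_Icc]
  · rw [hint, Real.log_exp]
    congr 1
    ring
  · filter_upwards [ae_restrict_mem measurableSet_Icc] with x hx
    have := hpos x hx
    positivity

lemma mass01B (hA : ProfStm) {q L : ℝ} (hq : 0 < q) (hL : 1 ≤ L) :
    ∫⁻ x in Icc 0 1, sg q L x ≤ ENNReal.ofReal 4 := by
  obtain ⟨-, -, hanti, -, -, -, -, h0, hmid, -⟩ := hA q L hq hL
  have e1 := Real.exp_pos (-L)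
  have e0 : Real.exp (-L) ≤ 1 := by
    rw [Real.exp_le_one_iff]; linarith
  have h1 : Icc (0:ℝ) 1 = Ico 0 (Real.exp (-L)) ∪ Icc (Real.exp (-L)) 1 :=
    (Ico_union_Icc_eq_Icc e1.le e0).symm
  have h2 : ∫⁻ x in Icc 0 1, sg q L x ≤ (∫⁻ x in Ico 0 (Real.exp (-L)), sg q L x)
      + ∫⁻ x in Icc (Real.exp (-L)) 1, sg q L x := by
    rw [h1]; exact lintegral_union_le _ _ _
  have h3 : ∫⁻ x in Ico 0 (Real.exp (-L)), sg q L x ≤ ENNReal.ofReal 2 := by
    calc ∫⁻ x in Ico 0 (Real.exp (-L)), sg q L x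
        ≤ ∫⁻ x in Ico 0 (Real.exp (-L)), ENNReal.ofReal (2 * Real.exp L) := by
          apply lintegral_mono
          intro x
          exact ENNReal.ofReal_le_ofReal ((hanti 0 |x| (abs_nonneg x)).trans h0.1)
      _ = ENNReal.ofReal 2 := by
          rw [setLIntegral_const, Real.volume_Ico, ← ENNReal.ofReal_mul (by positivity)]
          congr 1
          rw [sub_zero, mul_assoc, ← Real.exp_add]
          simp
  have h4 : ∫⁻ x in Icc (Real.exp (-L)) 1, sg q L x ≤ ENNReal.ofReal 2 := by
    refine le_trans ?_ (int_midB (E := Real.exp (-L)) (T := q + 1 + L) (L := L) e1 e0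
      (Real.log_exp _) (by linarith) (by linarith))
    apply setLIntegral_mono' measurableSet_Icc
    intro x hx
    have hx0 : 0 < x := by linarith [hx.1]
    simp only [sg]
    rw [abs_of_pos hx0]
    exact ENNReal.ofReal_le_ofReal (hmid x hx.1 hx.2).2
  calc ∫⁻ x in Icc 0 1, sg q L x ≤ _ := h2
    _ ≤ ENNReal.ofReal 2 + ENNReal.ofReal 2 := add_le_add h3 h4
    _ = ENNReal.ofReal 4 := by
      rw [← ENNReal.ofReal_add (by norm_num) (by norm_num)]; norm_num

lemma sg_negB (q L x : ℝ) : sg q L (-x) = sg q L x := by simp [sg]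

theorem intB (hA : ProfStm) : IntStm := by
  refine ⟨?_, ?_, ?_⟩
  · intro q L r hq hL hr
    have h01 := mass01B hA hq hL
    obtain ⟨-, -, hanti, -, hout, hlow, -, h0, hmid, -⟩ := hA q L hq hL
    have hh1 : 0 ≤ hh q L 1 := by
      refine le_trans ?_ (hlow 1)
      have : 0 < q + 1 + L := by linarith
      positivity
    rw [lint_evenB (sg_negB q L) hr]
    have hsplit : ∀ x ∈ Icc (0:ℝ) r, sg q L x ≤ (Icc (0 : ℝ) 1).indicator (sg q L) x
        + ENNReal.ofReal (hh q L 1) := by
      intro x hx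
      by_cases h : x ∈ Icc (0 : ℝ) 1
      · rw [indicator_of_mem h]; exact le_self_add
      · rw [indicator_of_notMem h, zero_add]
        have h2 : 1 ≤ |x| := by
          rw [abs_of_nonneg hx.1]
          by_contra hcon
          push Not at hcon
          exact h ⟨hx.1, hcon.le⟩
        exact ENNReal.ofReal_le_ofReal (hanti 1 |x| h2)
    have hb : ∫⁻ x in Icc 0 r, sg q L x ≤ ENNReal.ofReal (4 + r * hh q L 1) := by
      calc ∫⁻ x in Icc 0 r, sg q L x
          ≤ ∫⁻ x in Icc 0 r, ((Icc (0 : ℝ) 1).indicator (sg q L) x + ENNReal.ofReal (hh q L 1)) :=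
            setLIntegral_mono' measurableSet_Icc hsplit
        _ = (∫⁻ x in Icc 0 r, (Icc (0 : ℝ) 1).indicator (sg q L) x)
            + ENNReal.ofReal (hh q L 1) * volume (Icc 0 r) := by
            rw [lintegral_add_right _ measurable_const, setLIntegral_const]
        _ ≤ ENNReal.ofReal 4 + ENNReal.ofReal (r * hh q L 1) := by
            gcongr
            · refine (setLIntegral_le_lintegral _ _).trans ?_
              rw [lintegral_indicator measurableSet_Icc]
              exact h01
            · rw [Real.volume_Icc, ← ENNReal.ofReal_mul hh1]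
              apply ENNReal.ofReal_le_ofReal
              rw [sub_zero, mul_comm]
        _ = ENNReal.ofReal (4 + r * hh q L 1) := by
            rw [← ENNReal.ofReal_add (by norm_num) (by positivity)]
    calc 2 * ∫⁻ x in Icc 0 r, sg q L x ≤ 2 * ENNReal.ofReal (4 + r * hh q L 1) := by gcongr
      _ = ENNReal.ofReal (8 + 2 * r * hh q L 1) := by
        rw [show (2 : ℝ≥0∞) = ENNReal.ofReal 2 by norm_num, ← ENNReal.ofReal_mul (by norm_num)]
        congr 1
        ring
  · intro q L a b hq hL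
    have h01 := mass01B hA hq hL
    unfold mass
    calc ∫⁻ y in Icc a b ∩ Icc (-1) 1, sg q L y ≤ ∫⁻ y in Icc (-1) 1, sg q L y :=
          lintegral_mono_set inter_subset_right
      _ = 2 * ∫⁻ x in Icc 0 1, sg q L x := lint_evenB (sg_negB q L) zero_le_one
      _ ≤ 2 * ENNReal.ofReal 4 := by gcongr
      _ = 8 := by
        rw [show (2 : ℝ≥0∞) = ENNReal.ofReal 2 by norm_num, ← ENNReal.ofReal_mul (by norm_num)]
        norm_num
  · intro L r hL hr
    have e1 := Real.exp_pos (-L)
    have hr0 : 0 < r := lt_of_lt_of_le e1 hr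
    rw [lint_evenB (f := fun x => (Ici (Real.exp (-L))).indicator
      (fun t => ENNReal.ofReal (1 / t)) |x|) (fun x => by rw [abs_neg]) hr0.le]
    have hb : ∫⁻ x in Icc 0 r, (Ici (Real.exp (-L))).indicator
        (fun t => ENNReal.ofReal (1 / t)) |x| ≤ ENNReal.ofReal (L + Real.log r) := by
      rw [← log_intB hr, ← lintegral_indicator measurableSet_Icc,
        ← lintegral_indicator measurableSet_Icc]
      apply lintegral_mono
      intro x
      by_cases h : x ∈ Icc 0 r
      · rw [indicator_of_mem h, abs_of_nonneg h.1]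
        by_cases h2 : x ∈ Ici (Real.exp (-L))
        · rw [indicator_of_mem h2, indicator_of_mem (show x ∈ Icc (Real.exp (-L)) r from ⟨h2, h.2⟩)]
        · rw [indicator_of_notMem h2]; exact zero_le
      · rw [indicator_of_notMem h]; exact zero_le
    calc _ ≤ 2 * ENNReal.ofReal (L + Real.log r) := by gcongr
      _ = ENNReal.ofReal (2 * (L + Real.log r)) := by
        rw [show (2 : ℝ≥0∞) = ENNReal.ofReal 2 by norm_num, ← ENNReal.ofReal_mul (by norm_num)]

end Pool.Agent.Y908.MX
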