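import Pool.Agent.Y267.MX.Defs

/-! MX-D: the `A_p` bound on the line for the profile weight. -/

open MeasureTheory Set Filter Topology
open scoped ENNReal NNReal

namespace Pool.Agent.Y908.MX

open Pool.Agent.Y267.MX

lemma avg_le_of_forallD {f : ℝ → ℝ≥0∞} {a b : ℝ} {c : ℝ≥0∞} (hab : a < b)
    (h : ∀ y ∈ Icc a b, f y ≤ c) : avg f (Icc a b) ≤ c := by
  unfold avg
  have h1 : ∫⁻ y in Icc a b, f y ≤ c * volume (Icc a b) := by
    calc ∫⁻ y in Icc a b, f y ≤ ∫⁻ y in Icc a b, c := setLIntegral_mono measurable_const h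
      _ = c * volume (Icc a b) := setLIntegral_const _ _
  have h0 : volume (Icc a b) ≠ 0 := by
    rw [Real.volume_Icc]; simp [hab]
  have ht : volume (Icc a b) ≠ ⊤ := by
    rw [Real.volume_Icc]; exact ENNReal.ofReal_ne_top
  calc (volume (Icc a b))⁻¹ * ∫⁻ y in Icc a b, f y
      ≤ (volume (Icc a b))⁻¹ * (c * volume (Icc a b)) := by gcongr
    _ = c := by
      rw [mul_comm c, ← mul_assoc, ENNReal.inv_mul_cancel h0 ht, one_mul]

lemma key_realD {q T s H S : ℝ} (hq : 0 < q) (hs : 0 < s) (hT : 0 < T) (hH : 0 < H) (hS : 0 ≤ S)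
    (h : S * s ^ q ≤ 24 * T ^ (q + 1) * H) :
    H ^ (-(1 / q)) * S ^ (1 / q) ≤ 24 ^ (1 / q) * T ^ (1 + 1 / q) / s := by
  have e1 : H ^ (-(1 / q)) * S ^ (1 / q) = (S / H) ^ (1 / q) := by
    rw [Real.rpow_neg hH.le, Real.div_rpow hS hH.le, inv_mul_eq_div]
  have e2 : S / H ≤ 24 * T ^ (q + 1) / s ^ q := by
    rw [div_le_div_iff₀ hH (Real.rpow_pos_of_pos hs q)]; exact h
  rw [e1]
  calc (S / H) ^ (1 / q) ≤ (24 * T ^ (q + 1) / s ^ q) ^ (1 / q) :=
        Real.rpow_le_rpow (by positivity) e2 (by positivity)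
    _ = 24 ^ (1 / q) * T ^ (1 + 1 / q) / s := by
      rw [Real.div_rpow (by positivity) (by positivity), Real.mul_rpow (by norm_num) (by positivity),
        ← Real.rpow_mul hT.le, ← Real.rpow_mul hs.le]
      have h1 : q * (1 / q) = 1 := by field_simp
      have h2 : (q + 1) * (1 / q) = 1 + 1 / q := by field_simp
      rw [h1, h2, Real.rpow_one]

theorem apD (hA : ProfStm) (hB : IntStm) : ApStm := by
  intro q L a b hq hL hab
  obtain ⟨-, hsb, hanti, hdbl, hout, hlow, hcore, h0, hmid, -⟩ := hA q L hq hL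
  have hI := hB.1 q L (rad a b) hq hL
  have e1 := Real.exp_pos (-L)
  have e0 : Real.exp (-L) ≤ 1 := by
    rw [Real.exp_le_one_iff]; linarith
  have hle : ∀ y ∈ Icc a b, |y| ≤ rad a b := by
    intro y hy
    unfold rad
    rw [abs_le]
    constructor
    · have : -|a| ≤ a := neg_abs_le a
      have := le_max_left |a| |b|
      linarith [hy.1]
    · have : b ≤ |b| := le_abs_self b
      have := le_max_right |a| |b|
      linarith [hy.2]
  have hr0 : 0 < rad a b := by
    unfold rad
    rcases lt_or_ge a 0 with h | h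
    · exact lt_of_lt_of_le (abs_pos.mpr h.ne) (le_max_left _ _)
    · exact lt_of_lt_of_le (abs_pos.mpr (by linarith : (0:ℝ) < b).ne') (le_max_right _ _)
  have hrad : rad a b = max |a| |b| := rfl
  obtain ⟨T, hT⟩ : ∃ T, T = q + 1 + L := ⟨_, rfl⟩
  obtain ⟨r, hr⟩ : ∃ r, r = rad a b := ⟨_, rfl⟩
  rw [← hr] at hI hle hr0 hrad
  rw [← hr, ← hT]
  rw [← hT] at hlow hout
  have hmid1 : Real.exp (-L) ≤ r → r ≤ 1 → T ^ (-(q + 1)) * (ss q L r) ^ q / r ≤ hh q L r := by
    intro h1 h2
    rw [hT]
    exact (hmid r h1 h2).1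
  have hs1 : q + 1 ≤ ss q L r := (hsb r).1
  have hs2 : ss q L r ≤ T := by rw [hT]; exact (hsb r).2
  obtain ⟨s, hs⟩ : ∃ s, s = ss q L r := ⟨_, rfl⟩
  rw [← hs] at hmid1 hs1 hs2
  rw [← hs]
  have hT1 : 1 ≤ T := by linarith
  have hT0 : 0 < T := by linarith
  have hs0 : 0 < s := by linarith
  have hH : 0 < hh q L r := lt_of_lt_of_le (inv_pos.mpr hT0) (hlow r)
  have hsq : s ^ q ≤ T ^ q := Real.rpow_le_rpow hs0.le hs2 hq.le
  have hTq : T ^ (q + 1) = T ^ q * T := by
    rw [Real.rpow_add hT0, Real.rpow_one]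
  have hTq0 : 0 < T ^ q := Real.rpow_pos_of_pos hT0 q
  have hsq0 : 0 < s ^ q := Real.rpow_pos_of_pos hs0 q
  have hsq' : s ^ q ≤ T ^ (q + 1) := by
    rw [hTq]; nlinarith
  have hw : avg (wg q L) (Icc a b) ≤ ENNReal.ofReal (hh q L r ^ (-(1 / q))) := by
    apply avg_le_of_forallD hab
    intro y hy
    unfold wg
    apply ENNReal.ofReal_le_ofReal
    apply Real.rpow_le_rpow_of_nonpos hH (hanti _ _ (hle y hy))
    have : 0 < 1 / q := by positivity
    linarith
  have prod : ∀ S : ℝ, 0 ≤ S → avg (sg q L) (Icc a b) ≤ ENNReal.ofReal S →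
      S * s ^ q ≤ 24 * T ^ (q + 1) * hh q L r →
      avg (wg q L) (Icc a b) * avg (sg q L) (Icc a b) ^ (1 / q) ≤
        ENNReal.ofReal (24 ^ (1 / q) * T ^ (1 + 1 / q) / s) := by
    intro S hS h1 h2
    have hq1 : 0 ≤ 1 / q := by positivity
    calc avg (wg q L) (Icc a b) * avg (sg q L) (Icc a b) ^ (1 / q)
        ≤ ENNReal.ofReal (hh q L r ^ (-(1 / q))) * (ENNReal.ofReal S) ^ (1 / q) :=
          mul_le_mul' hw (ENNReal.rpow_le_rpow h1 hq1)
      _ = ENNReal.ofReal (hh q L r ^ (-(1 / q)) * S ^ (1 / q)) := by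
          rw [ENNReal.ofReal_rpow_of_nonneg hS hq1, ← ENNReal.ofReal_mul (by positivity)]
      _ ≤ _ := ENNReal.ofReal_le_ofReal (key_realD hq hs0 hT0 hH hS h2)
  by_cases hc : b - a < r / 2
  · have hfar : ∀ y ∈ Icc a b, r / 2 ≤ |y| := by
      intro y hy
      rcases le_total |a| |b| with h | h
      · have hr : r = |b| := by rw [hrad]; exact max_eq_right h
        have h4 : |b| - |y| ≤ |b - y| := abs_sub_abs_le_abs_sub b y
        have h5 : |b - y| ≤ b - a := by
          rw [abs_le]; constructor <;> linarith [hy.1, hy.2]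
        linarith
      · have hr : r = |a| := by rw [hrad]; exact max_eq_left h
        have h4 : |a| - |y| ≤ |a - y| := abs_sub_abs_le_abs_sub a y
        have h5 : |a - y| ≤ b - a := by
          rw [abs_le]; constructor <;> linarith [hy.1, hy.2]
        linarith
    refine prod (4 * hh q L r) (by positivity) ?_ ?_
    · apply avg_le_of_forallD hab
      intro y hy
      exact ENNReal.ofReal_le_ofReal ((hanti _ _ (hfar y hy)).trans (hdbl r hr0.le))
    · have h1 : hh q L r * s ^ q ≤ hh q L r * T ^ (q + 1) := mul_le_mul_of_nonneg_left hsq' hH.le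
      have h2 : 0 ≤ hh q L r * T ^ (q + 1) := by positivity
      nlinarith
  · push Not at hc
    rcases le_total r (Real.exp (-L)) with hrE | hrE
    · refine prod (hh q L r) hH.le ?_ ?_
      · apply avg_le_of_forallD hab
        intro y hy
        rw [hcore r hrE]
        exact ENNReal.ofReal_le_ofReal (hanti 0 |y| (abs_nonneg y))
      · have h1 : hh q L r * s ^ q ≤ hh q L r * T ^ (q + 1) := mul_le_mul_of_nonneg_left hsq' hH.le
        have h2 : 0 ≤ hh q L r * T ^ (q + 1) := by positivity
        nlinarith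
    · have hh1 : 0 ≤ hh q L 1 := (inv_pos.mpr hT0).le.trans (hlow 1)
      have havg : avg (sg q L) (Icc a b) ≤ ENNReal.ofReal ((2 / r) * (8 + 2 * r * hh q L 1)) := by
        unfold avg
        have hsub : Icc a b ⊆ Icc (-r) r := by
          intro y hy
          exact abs_le.mp (hle y hy)
        calc (volume (Icc a b))⁻¹ * ∫⁻ y in Icc a b, sg q L y
            ≤ ENNReal.ofReal (2 / r) * ∫⁻ y in Icc (-r) r, sg q L y := by
              apply mul_le_mul'
              · rw [Real.volume_Icc, ← ENNReal.ofReal_inv_of_pos (by linarith)]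
                apply ENNReal.ofReal_le_ofReal
                rw [inv_eq_one_div, div_le_div_iff₀ (by linarith) hr0]
                linarith
              · exact lintegral_mono_set hsub
          _ ≤ ENNReal.ofReal (2 / r) * ENNReal.ofReal (8 + 2 * r * hh q L 1) := by
              gcongr
              exact hI hr0.le
          _ = _ := (ENNReal.ofReal_mul (by positivity)).symm
      rcases le_total r 1 with hr1 | hr1
      · have hh1' : hh q L 1 ≤ 2 := by
          rw [hout 1 le_rfl]
          have : T⁻¹ ≤ 1 := inv_le_one_of_one_le₀ hT1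
          linarith
        refine prod (24 / r) (by positivity) (havg.trans ?_) ?_
        · apply ENNReal.ofReal_le_ofReal
          rw [div_mul_eq_mul_div, div_le_div_iff_of_pos_right hr0]
          nlinarith [mul_le_mul hr1 hh1' hh1 zero_le_one]
        · have h1 := hmid1 hrE hr1
          have h2 : 0 ≤ 24 * T ^ (q + 1) := by positivity
          have h3 := mul_le_mul_of_nonneg_left h1 h2
          refine le_trans (le_of_eq ?_) h3
          have h4 : T ^ (q + 1) * T ^ (-(q + 1)) = 1 := by
            rw [← Real.rpow_add hT0]; simp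
          calc 24 / r * s ^ q = 24 * 1 * (s ^ q / r) := by ring
            _ = 24 * (T ^ (q + 1) * T ^ (-(q + 1))) * (s ^ q / r) := by rw [h4]
            _ = _ := by ring
      · have hrr : hh q L r = hh q L 1 := by rw [hout r hr1, hout 1 le_rfl]
        refine prod ((2 / r) * (8 + 2 * r * hh q L 1)) (by positivity) havg ?_
        have h5 : (2 / r) * (8 + 2 * r * hh q L 1) ≤ 20 * (T * hh q L r) := by
          rw [hrr]
          have h6 : 1 ≤ T * hh q L 1 := by
            have := mul_le_mul_of_nonneg_left (hlow 1) hT0.le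
            rwa [mul_inv_cancel₀ hT0.ne'] at this
          have h7 : hh q L 1 ≤ T * hh q L 1 := by nlinarith
          have h8 : (2 / r) * (8 + 2 * r * hh q L 1) = 16 / r + 4 * hh q L 1 := by
            field_simp
            ring
          have h9 : 16 / r ≤ 16 := by
            rw [div_le_iff₀ hr0]; linarith
          rw [h8]
          linarith
        calc (2 / r) * (8 + 2 * r * hh q L 1) * s ^ q
            ≤ 20 * (T * hh q L r) * T ^ q :=
              mul_le_mul h5 hsq hsq0.le (by positivity)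
          _ = 20 * T ^ (q + 1) * hh q L r := by rw [hTq]; ring
          _ ≤ 24 * T ^ (q + 1) * hh q L r := by
            have : 0 ≤ T ^ (q + 1) * hh q L r := by positivity
            nlinarith

end Pool.Agent.Y908.MX
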