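import Pool.Agent.Y267.MX.Defs

/-! MX-A: the profile (helper908). -/

set_option autoImplicit false

open MeasureTheory Set Filter Topology
open scoped ENNReal NNReal

namespace Pool.Agent.Y908.MX

open Pool.Agent.Y267.MX

theorem core_anti (q s d : ℝ) (hq : 0 < q) (hs : q ≤ s) (hd : 0 ≤ d) :
    (s + d) ^ q ≤ s ^ q * Real.exp d := by
  have hs0 : 0 < s := by linarith
  have h1 : s + d ≤ s * Real.exp (d / s) := by
    have h2 := Real.add_one_le_exp (d / s)
    have h3 : s * (d / s + 1) = s + d := by field_simp; ring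
    rw [← h3]
    exact mul_le_mul_of_nonneg_left h2 hs0.le
  calc (s + d) ^ q ≤ (s * Real.exp (d / s)) ^ q :=
        Real.rpow_le_rpow (by linarith) h1 hq.le
    _ = s ^ q * Real.exp (d / s * q) := by
        rw [Real.mul_rpow hs0.le (Real.exp_pos _).le, Real.exp_mul]
    _ ≤ s ^ q * Real.exp d := by
        apply mul_le_mul_of_nonneg_left _ (by positivity)
        apply Real.exp_le_exp.mpr
        rw [div_mul_eq_mul_div, div_le_iff₀ hs0]
        exact mul_le_mul_of_nonneg_left hs hd

/-- the profile as a function of `t` -/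
noncomputable def F (q L t : ℝ) : ℝ :=
  Real.exp (-L) / t ^ 2 + (q + 1 + L) ^ (-(q + 1)) * (q + 1 + L + Real.log t) ^ q / t

theorem hh_eq (q L r : ℝ) : hh q L r = F q L (tt L r) := rfl

section
variable {q L : ℝ} (hq : 0 < q) (hL : 1 ≤ L)
include hq hL

theorem log_ge {t : ℝ} (h1 : Real.exp (-L) ≤ t) : -L ≤ Real.log t := by
  have := Real.log_le_log (Real.exp_pos _) h1
  rwa [Real.log_exp] at this

theorem F_anti {t t' : ℝ} (h1 : Real.exp (-L) ≤ t) (h2 : t ≤ t') :
    F q L t' ≤ F q L t := by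
  have hE := Real.exp_pos (-L)
  have ht : 0 < t := lt_of_lt_of_le hE h1
  have ht' : 0 < t' := lt_of_lt_of_le ht h2
  have hlt := log_ge hq hL h1
  unfold F
  apply add_le_add
  · apply div_le_div_of_nonneg_left hE.le (by positivity)
    exact pow_le_pow_left₀ ht.le h2 2
  · have hd : 0 ≤ Real.log t' - Real.log t := by
      have := Real.log_le_log ht h2
      linarith
    have h3 := core_anti q (q + 1 + L + Real.log t) (Real.log t' - Real.log t) hq
      (by linarith) hd
    have e1 : q + 1 + L + Real.log t + (Real.log t' - Real.log t) = q + 1 + L + Real.log t' := by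
      ring
    have e2 : Real.exp (Real.log t' - Real.log t) = t' / t := by
      rw [Real.exp_sub, Real.exp_log ht', Real.exp_log ht]
    rw [e1, e2] at h3
    have hT : 0 ≤ (q + 1 + L) ^ (-(q + 1)) := by positivity
    rw [div_le_div_iff₀ ht' ht]
    have h4 : (q + 1 + L + Real.log t') ^ q * t ≤ (q + 1 + L + Real.log t) ^ q * t' := by
      have := mul_le_mul_of_nonneg_right h3 ht.le
      have e3 : (q + 1 + L + Real.log t) ^ q * (t' / t) * t = (q + 1 + L + Real.log t) ^ q * t' := by
        field_simp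
      rwa [e3] at this
    have := mul_le_mul_of_nonneg_left h4 hT
    nlinarith

theorem F_half {t t' : ℝ} (h1 : Real.exp (-L) ≤ t') (h2 : t' ≤ t) (h3 : t / 2 ≤ t') :
    F q L t' ≤ 4 * F q L t := by
  have hE := Real.exp_pos (-L)
  have ht' : 0 < t' := lt_of_lt_of_le hE h1
  have ht : 0 < t := lt_of_lt_of_le ht' h2
  have hlt := log_ge hq hL h1
  have hT : 0 ≤ (q + 1 + L) ^ (-(q + 1)) := by positivity
  have hs : (q + 1 + L + Real.log t') ^ q ≤ (q + 1 + L + Real.log t) ^ q := by
    apply Real.rpow_le_rpow (by linarith) _ hq.le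
    have := Real.log_le_log ht' h2
    linarith
  have hs0 : 0 ≤ (q + 1 + L + Real.log t) ^ q := by
    apply Real.rpow_nonneg
    have := Real.log_le_log ht' h2
    linarith
  unfold F
  have a1 : Real.exp (-L) / t' ^ 2 ≤ 4 * (Real.exp (-L) / t ^ 2) := by
    have : 4 * (Real.exp (-L) / t ^ 2) = Real.exp (-L) / (t / 2) ^ 2 := by field_simp; norm_num
    rw [this]
    apply div_le_div_of_nonneg_left hE.le (by positivity)
    exact pow_le_pow_left₀ (by positivity) h3 2
  have a2 : (q + 1 + L) ^ (-(q + 1)) * (q + 1 + L + Real.log t') ^ q / t' ≤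
      4 * ((q + 1 + L) ^ (-(q + 1)) * (q + 1 + L + Real.log t) ^ q / t) := by
    have b1 : (q + 1 + L) ^ (-(q + 1)) * (q + 1 + L + Real.log t') ^ q / t' ≤
        (q + 1 + L) ^ (-(q + 1)) * (q + 1 + L + Real.log t) ^ q / (t / 2) := by
      apply div_le_div₀ (by positivity) (mul_le_mul_of_nonneg_left hs hT) (by positivity) h3
    have b2 : (q + 1 + L) ^ (-(q + 1)) * (q + 1 + L + Real.log t) ^ q / (t / 2) =
        2 * ((q + 1 + L) ^ (-(q + 1)) * (q + 1 + L + Real.log t) ^ q / t) := by
      field_simp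
    have b3 : 0 ≤ (q + 1 + L) ^ (-(q + 1)) * (q + 1 + L + Real.log t) ^ q / t := by positivity
    linarith
  linarith

theorem T_id : (q + 1 + L) ^ (-(q + 1)) * (q + 1 + L) ^ q = (q + 1 + L)⁻¹ := by
  have hT : 0 < q + 1 + L := by linarith
  rw [← Real.rpow_add hT, ← Real.rpow_neg_one]
  congr 1
  ring

end

theorem E_le_one {L : ℝ} (hL : 1 ≤ L) : Real.exp (-L) ≤ 1 := by
  rw [Real.exp_le_one_iff]
  linarith

theorem tt_ge (L r : ℝ) : Real.exp (-L) ≤ tt L r := le_max_left _ _

theorem tt_le {L : ℝ} (hL : 1 ≤ L) (r : ℝ) : tt L r ≤ 1 :=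
  max_le (E_le_one hL) (min_le_left _ _)

theorem tt_mono (L : ℝ) {r s : ℝ} (h : r ≤ s) : tt L r ≤ tt L s :=
  max_le_max le_rfl (min_le_min le_rfl h)

theorem tt_half (L r : ℝ) : tt L r / 2 ≤ tt L (r / 2) := by
  have hE := Real.exp_pos (-L)
  unfold tt
  rcases max_choice (Real.exp (-L)) (min 1 r) with h | h
  · rw [h]
    exact le_trans (by linarith) (le_max_left _ _)
  · rw [h]
    refine le_trans ?_ (le_max_right _ _)
    apply le_min
    · have := min_le_left 1 r
      linarith
    · have := min_le_right 1 r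
      linarith

theorem tt_one {L : ℝ} (hL : 1 ≤ L) {r : ℝ} (hr : 1 ≤ r) : tt L r = 1 := by
  unfold tt
  rw [min_eq_left hr, max_eq_right (E_le_one hL)]

theorem tt_small {L r : ℝ} (hr : r ≤ Real.exp (-L)) : tt L r = Real.exp (-L) := by
  unfold tt
  exact max_eq_left ((min_le_right _ _).trans hr)

theorem tt_mid {L r : ℝ} (h1 : Real.exp (-L) ≤ r) (h2 : r ≤ 1) : tt L r = r := by
  unfold tt
  rw [min_eq_right h2, max_eq_right h1]

theorem profA : ProfStm := by
  intro q L hq hL
  have hE := Real.exp_pos (-L)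
  have hT : 0 < q + 1 + L := by linarith
  have hss : ∀ r, q + 1 ≤ ss q L r ∧ ss q L r ≤ q + 1 + L := by
    intro r
    have h1 := log_ge hq hL (tt_ge L r)
    have h2 : Real.log (tt L r) ≤ 0 := by
      apply Real.log_nonpos (hE.le.trans (tt_ge L r)) (tt_le hL r)
    unfold ss
    constructor <;> linarith
  have hanti : ∀ r s, r ≤ s → hh q L s ≤ hh q L r := by
    intro r s h
    rw [hh_eq, hh_eq]
    exact F_anti hq hL (tt_ge L r) (tt_mono L h)
  have hone : ∀ r, 1 ≤ r → hh q L r = Real.exp (-L) + (q + 1 + L)⁻¹ := by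
    intro r hr
    rw [hh_eq, tt_one hL hr, F, Real.log_one, add_zero, T_id hq hL]
    simp
  refine ⟨fun r => ⟨tt_ge L r, tt_le hL r⟩, hss, hanti, ?_, hone, ?_, ?_, ?_, ?_, ?_⟩
  · intro r hr
    rw [hh_eq, hh_eq]
    exact F_half hq hL (tt_ge L _) (tt_mono L (by linarith)) (tt_half L r)
  · intro r
    have h1 := hanti r (max r 1) (le_max_left _ _)
    rw [hone _ (le_max_right _ _)] at h1
    linarith
  · intro r hr
    rw [hh_eq, hh_eq, tt_small hr, tt_small hE.le]
  · rw [hh_eq, tt_small hE.le, F, Real.log_exp]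
    have e1 : q + 1 + L + -L = q + 1 := by ring
    rw [e1]
    have e2 : Real.exp (-L) / Real.exp (-L) ^ 2 = Real.exp L := by
      rw [pow_two, ← div_div, div_self hE.ne', one_div, ← Real.exp_neg, neg_neg]
    have e3 : (q + 1 + L) ^ (-(q + 1)) * (q + 1) ^ q / Real.exp (-L) =
        (q + 1 + L) ^ (-(q + 1)) * (q + 1) ^ q * Real.exp L := by
      rw [Real.exp_neg, div_inv_eq_mul]
    rw [e2, e3]
    have h1 : 0 ≤ (q + 1 + L) ^ (-(q + 1)) * (q + 1) ^ q := by positivity
    have h2 : (q + 1 + L) ^ (-(q + 1)) * (q + 1) ^ q ≤ 1 := by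
      have h3 : (q + 1) ^ q ≤ (q + 1 + L) ^ q := Real.rpow_le_rpow (by linarith) (by linarith) hq.le
      calc (q + 1 + L) ^ (-(q + 1)) * (q + 1) ^ q
          ≤ (q + 1 + L) ^ (-(q + 1)) * (q + 1 + L) ^ q :=
            mul_le_mul_of_nonneg_left h3 (by positivity)
        _ = (q + 1 + L)⁻¹ := T_id hq hL
        _ ≤ 1 := inv_le_one_of_one_le₀ (by linarith)
    have hp := Real.exp_pos L
    constructor
    · have := mul_le_mul_of_nonneg_right h2 hp.le
      linarith
    · have := mul_nonneg h1 hp.le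
      linarith
  · intro r h1 h2
    have hr : 0 < r := lt_of_lt_of_le hE h1
    have hs := hss r
    have hss' : ss q L r = q + 1 + L + Real.log r := by
      unfold ss
      rw [tt_mid h1 h2]
    rw [hh_eq, tt_mid h1 h2, F, ← hss']
    constructor
    · have : 0 ≤ Real.exp (-L) / r ^ 2 := by positivity
      linarith
    · have h3 : (q + 1 + L) ^ (-(q + 1)) * (ss q L r) ^ q ≤ (q + 1 + L)⁻¹ := by
        rw [← T_id hq hL]
        apply mul_le_mul_of_nonneg_left _ (by positivity)
        exact Real.rpow_le_rpow (by linarith) hs.2 hq.le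
      have h4 := div_le_div_of_nonneg_right h3 hr.le
      linarith
  · unfold hh ss tt
    fun_prop

end Pool.Agent.Y908.MX
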